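import Pool.Agent.MP_6a4325_al.H84.Spec3

/-! Row DIAG: a subgroup of finite index acts by diagonal matrices. -/

set_option autoImplicit false

namespace Pool.Agent.MP_6a4325_al.H65

open Pool.Agent.MP_6a4325_al.H62 Pool.Agent.MP_6a4325_al.H84 Matrix

namespace Diag

variable {K G : Type} [Field K] [Group G] {n : ℕ}

theorem coef (ρ : G →* Matrix (Fin n) (Fin n) K) (f : (Fin n → K) →ₗ[K] K) (v : Fin n → K) :
    (fun h => f (ρ h *ᵥ v)) ∈ cf ρ := by
  have e : (fun h => f (ρ h *ᵥ v)) = ∑ i, ∑ j,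
      (v j * f fun l => if i = l then 1 else 0) • fun h => ρ h i j := by
    funext h
    rw [LinearMap.pi_apply_eq_sum_univ f, Finset.sum_apply]
    refine Finset.sum_congr rfl fun i _ => ?_
    rw [Finset.sum_apply, mulVec, dotProduct, smul_eq_mul, Finset.sum_mul]
    refine Finset.sum_congr rfl fun j _ => ?_
    simp only [Pi.smul_apply, smul_eq_mul]
    ring
  rw [e]
  exact Subalgebra.sum_mem _ fun i _ => Subalgebra.sum_mem _ fun j _ =>
    Subalgebra.smul_mem _ (Algebra.subset_adjoin (Set.mem_range.2 ⟨(i, j), rfl⟩)) _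

/-- a common eigenvector -/
theorem eigen (hA : AiApi) (hM : SMin) (hO : SOne) (p : ℕ) [Fact p.Prime] [IsAlgClosed K]
    [CharP K p] (D : ℕ) (ρ : G →* Matrix (Fin n) (Fin n) K) (hn : 0 < n) (hd : IsDomain (cf ρ))
    (hB : Bd p G D) : ∃ v : Fin n → K, v ≠ 0 ∧ ∀ h, ∃ c : K, ρ h *ᵥ v = c • v := by
  have : Nonempty (Fin n) := ⟨⟨0, hn⟩⟩
  obtain ⟨U, hU, hI, -⟩ := hM K G (Fin n → K) (lin ρ) inferInstance inferInstance
  have h1 := hO p K G (cf ρ) D hd (Subalgebra.fg_def.2 ⟨_, Set.finite_range _, rfl⟩) hB _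
    (mat (Module.finBasis K U) ((lin ρ).subrepresentation U hU)) (hA.burn _ _ _ _ _ _ hI) ?_
  · obtain ⟨v, hv⟩ := finrank_le_one_iff.1 h1
    have := hI.1
    refine ⟨v, fun h0 => ?_, fun h => ?_⟩
    · obtain ⟨w, hw⟩ := exists_ne (0 : U)
      obtain ⟨c, hc⟩ := hv w
      have : v = 0 := Subtype.ext h0
      exact hw (by rw [← hc, this, smul_zero])
    · obtain ⟨c, hc⟩ := hv ⟨_, hU h v v.2⟩
      exact ⟨c, (congrArg Subtype.val hc).symm⟩
  · intro i j
    obtain ⟨f, hf⟩ := LinearMap.exists_extend ((Module.finBasis K U).coord i)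
    have := coef ρ f (Module.finBasis K U j)
    convert this using 2 with h
    rw [mat_apply, LinearMap.toMatrix_apply, ← Module.Basis.coord_apply, ← hf]
    rfl

/-- a basis of common eigenvectors -/
theorem basis (ρ : G →* Matrix (Fin n) (Fin n) K) (hI : Irr (lin ρ)) (N : Subgroup G)
    (hN : N.Normal) (v : Fin n → K) (hv : v ≠ 0) (he : ∀ h : N, ∃ c : K, ρ h *ᵥ v = c • v) :
    ∃ b : Module.Basis (Fin n) K (Fin n → K), ∀ i (h : N), ∃ c : K, ρ h *ᵥ b i = c • b i := by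
  set Ev : Set (Fin n → K) := {w | ∀ h : N, ∃ c : K, ρ h *ᵥ w = c • w} with hEv
  have hinv : Inv (lin ρ) (Submodule.span K Ev) := by
    intro g u hu
    have : (Submodule.span K Ev).map (lin ρ g) ≤ Submodule.span K Ev := by
      rw [Submodule.map_span]
      refine Submodule.span_mono ?_
      rintro _ ⟨w, hw, rfl⟩ h
      obtain ⟨c, hc⟩ := hw ⟨g⁻¹ * h * g, hN.conj_mem' _ h.2 g⟩
      refine ⟨c, ?_⟩
      rw [lin_apply, ← mulVec_smul, ← hc, mulVec_mulVec, mulVec_mulVec, ← map_mul, ← map_mul]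
      congr 2
      simp only [← mul_assoc, mul_inv_cancel, one_mul]
    exact this ⟨u, hu, rfl⟩
  have htop : Submodule.span K Ev = ⊤ := by
    refine (hI.2 _ hinv).resolve_left fun h0 => hv ?_
    have : v ∈ Submodule.span K Ev := Submodule.subset_span he
    rwa [h0] at this
  obtain ⟨s, hs, hsp, hli⟩ := exists_linearIndependent K Ev
  let B : Module.Basis s K (Fin n → K) := Module.Basis.mk hli (by
    rw [Subtype.range_coe, hsp, htop])
  refine ⟨B.reindex (B.indexEquiv (Pi.basisFun K (Fin n))), fun i => ?_⟩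
  rw [Module.Basis.reindex_apply, Module.Basis.mk_apply]
  exact hs (Subtype.prop _)

theorem root (O : Subalgebra K (G → K)) (hd : IsDomain O) (χ χ' : G →* K) (h1 : ⇑χ ∈ O)
    (h2 : ⇑χ' ∈ O) (m : ℕ) (hm : 0 < m) (h : ∀ g, χ g ^ m = χ' g ^ m) : χ = χ' := by
  have hp : ∏ ζ ∈ Polynomial.nthRootsFinset m (1 : K),
      ((⟨χ, h1⟩ : O) - ζ • (⟨χ', h2⟩ : O)) = 0 := by
    refine Subtype.ext (funext fun g => ?_)
    have hne : χ' g ≠ 0 := ((Group.isUnit g).map χ').ne_zero
    rw [SubmonoidClass.coe_finsetProd, Finset.prod_apply]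
    refine Finset.prod_eq_zero (i := χ g / χ' g) ?_ ?_
    · rw [Polynomial.mem_nthRootsFinset hm, div_pow, h, div_self (pow_ne_zero _ hne)]
    · change χ g - χ g / χ' g * χ' g = 0
      rw [div_mul_cancel₀ _ hne, sub_self]
  obtain ⟨ζ, -, hz⟩ := Finset.prod_eq_zero_iff.1 hp
  have hz' : ∀ g, χ g - ζ * χ' g = 0 := fun g => congrFun (congrArg Subtype.val hz) g
  have h3 := hz' 1
  rw [map_one, map_one, mul_one, sub_eq_zero] at h3
  ext g
  have := hz' g
  rwa [← h3, one_mul, sub_eq_zero] at this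

end Diag

open Diag in
theorem diag : AiApi → SMin → SConn → SOne → SDiag := by
  intro hA hM hC hO p _ K G _ _ _ _ D n ρ hB hρ
  rcases Nat.eq_zero_or_pos n with rfl | hn
  · exact ⟨⊤, ρ, fun i => i.elim0, inferInstance, hρ, fun _ => Subsingleton.elim _ _,
      fun i => i.elim0⟩
  have : Nonempty (Fin n) := ⟨⟨0, hn⟩⟩
  obtain ⟨N, hN, hF, hd⟩ := hC K G (Fin n) ρ
  obtain ⟨v, hv, he⟩ := eigen hA hM hO p D (ρ.comp N.subtype) hn hd (hB N)
  obtain ⟨b, hb⟩ := basis ρ (hA.irr _ _ _ ρ hρ) N hN v hv he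
  have hdg : ∀ h : N, mat b (lin ρ) h = Matrix.diagonal fun i => mat b (lin ρ) h i i := by
    intro h
    ext i j
    by_cases hij : i = j
    · rw [hij, Matrix.diagonal_apply_eq]
    · obtain ⟨c, hc⟩ := hb j h
      rw [Matrix.diagonal_apply_ne _ hij, mat_apply, LinearMap.toMatrix_apply, lin_apply, hc,
        map_smul, Module.Basis.repr_self, Finsupp.smul_apply, Finsupp.single_eq_of_ne hij,
        smul_zero]
  let χ : Fin n → N →* K := fun i =>
    { toFun := fun h => mat b (lin ρ) h i i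
      map_one' := by simp
      map_mul' := fun h h' => by
        rw [Subgroup.coe_mul, map_mul, hdg h', Matrix.mul_diagonal, Matrix.diagonal_apply_eq] }
  have hχ : ∀ i, ⇑(χ i) ∈ cf (ρ.comp N.subtype) := by
    intro i
    have := coef (ρ.comp N.subtype) (b.coord i) (b i)
    convert this using 2 with h
    change mat b (lin ρ) h i i = _
    rw [mat_apply, LinearMap.toMatrix_apply]
    rfl
  exact ⟨N, mat b (lin ρ), χ, hF, hA.conj _ _ _ _ ρ b hρ, hdg,
    fun i j m hm h => root _ hd _ _ (hχ i) (hχ j) m hm h⟩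

end Pool.Agent.MP_6a4325_al.H65
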