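import Pool.Agent.MP_6a4325_al.H84.Spec3
import Pool.Agent.MP_6a4325_al.H45.Ws2
import Pool.Agent.MP_6a4325_al.H3.Ext

/-! Row WS3: torsion elementary amenable groups, normal `p`-subgroups. -/

set_option autoImplicit false

namespace Pool.Agent.MP_6a4325_al.H65

open Pool.Agent.MP_6a4325_al.H62 Pool.Agent.MP_6a4325_al.H84 Matrix Function

namespace Ws3

open H45.Ws

variable {k G M : Type} [Field k] [Group G] [AddCommGroup M] [Module k M]

/-- a normal `p`-subgroup acts trivially -/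
theorem triv {p : ℕ} [Fact p.Prime] [CharP k p] {S : Subgroup G} [S.Normal]
    (hl : ∀ H : Subgroup G, H.FG → Finite (S.subgroupOf H)) (hS : IsPGroup p S) {ρ : Representation k G M} (h : Irr ρ) :
    ∀ s ∈ S, ρ s = 1 := by
  refine (h.aug_top S).resolve_right fun e => ?_
  have := h.1
  obtain ⟨v, hv⟩ := exists_ne (0 : M)
  have fg1 : ∀ g : G, (Subgroup.zpowers g).FG := fun g =>
    ⟨{g}, by rw [Finset.coe_singleton, Subgroup.zpowers_eq_closure]⟩
  have h1 : ∀ u, ∃ H : Subgroup G, H.FG ∧ u ∈ genS ρ H {v} := fun u =>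
    loc (fun H => genS ρ H {v}) (fun _ _ hH => genS_mono ρ hH _)
      ((h.gen_top hv).ge Submodule.mem_top : u ∈ gen ρ {v})
      fun x ⟨g, t, ht, e⟩ => ⟨_, fg1 g, Submodule.subset_span ⟨g, Subgroup.mem_zpowers g, t, ht, e⟩⟩
  obtain ⟨H, hH, h2⟩ := loc (fun H => aug ρ (S ⊓ H) (genS ρ H {v}))
    (fun _ _ hH => aug_mono ρ (inf_le_inf_left S hH) (genS_mono ρ hH _))
    (e.ge Submodule.mem_top : v ∈ aug ρ S ⊤) fun x ⟨a, ha, u, _, e⟩ => by
      obtain ⟨H, h2, h3⟩ := h1 u
      exact ⟨H ⊔ Subgroup.zpowers a, h2.sup (fg1 a), Submodule.subset_span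
        ⟨a, ⟨ha, Subgroup.mem_sup_right (Subgroup.mem_zpowers a)⟩, u,
          genS_mono ρ le_sup_left _ h3, e⟩⟩
  let σ := (invS_genS ρ H {v}).rep
  let v' : genS ρ H {v} := ⟨v, mem_genS ρ H rfl⟩
  have hg : gen σ {v'} = ⊤ := gen_rep_genS ρ H v
  obtain ⟨U, hU, -, h3⟩ := exists_irr_quot σ {v'} (by rw [Finset.coe_singleton, hg]) ⊥
    (fun g u hu => by rw [(Submodule.mem_bot k).1 hu, map_zero]; exact zero_mem _)
    fun e => hv (congrArg Subtype.val
      ((Submodule.mem_bot k).1 (show v' ∈ ⊥ from e ▸ Submodule.mem_top)))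
  let P := S.subgroupOf H
  have hP : IsPGroup p P := hS.comap_subtype
  have : Finite P := hl H hH
  have := h3.1
  obtain ⟨w, hw⟩ := exists_ne (0 : genS ρ H {v} ⧸ U)
  obtain ⟨u, u0, hu⟩ := ex_fix hP ((σ.quotient U hU).comp P.subtype) hw
  have h4 := h3.fix P u0 fun n hn => hu ⟨n, hn⟩
  have h5 : aug ρ (S ⊓ H) (genS ρ H {v}) ≤ U.map (Submodule.subtype _) := by
    refine Submodule.span_le.2 ?_
    rintro _ ⟨a, ha, x, hx, rfl⟩
    refine ⟨σ ⟨a, ha.2⟩ ⟨x, hx⟩ - ⟨x, hx⟩, (Submodule.Quotient.eq U).1 ?_, rfl⟩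
    exact LinearMap.congr_fun (h4 ⟨a, ha.2⟩ ha.1) (Submodule.Quotient.mk ⟨x, hx⟩)
  obtain ⟨x, hx, e'⟩ := h5 h2
  have h6 : v' ∈ U := (Subtype.ext e' : x = v') ▸ hx
  exact Submodule.Quotient.nontrivial_iff.1 h3.1
    (top_le_iff.1 (hg ▸ gen_le hU fun t ht => ht ▸ h6))

end Ws3

open H3 in
theorem eaf : SEaf := by
  intro G _ h
  suffices key : ∀ (Q : Type) [Group Q], Sec G Q → Group.FG Q → (∀ g : Q, IsOfFinOrder g) →
      Finite Q from key G (Sec.of_inj (MonoidHom.id G) injective_id)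
  induction h with
  | finite G hG =>
    rintro Q _ ⟨H, _, i, f, hi, hf⟩ - -
    have := Finite.of_injective _ hi
    exact Finite.of_surjective _ hf
  | abelian G hG =>
    rintro Q _ ⟨H, _, i, f, hi, hf⟩ hQ ht
    let _ : CommGroup Q :=
      { (inferInstance : Group Q) with
        mul_comm := fun a b => by
          obtain ⟨a, rfl⟩ := hf a
          obtain ⟨b, rfl⟩ := hf b
          rw [← map_mul, ← map_mul, hi (show i (a * b) = i (b * a) by rw [map_mul, map_mul, hG])] }
    exact CommGroup.finite_of_fg_isMulTorsion Q ht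
  | sub G H f hf _ ih => exact fun Q _ hs => ih Q ((Sec.of_inj f hf).trans hs)
  | quot G R f hf _ ih => exact fun Q _ hs => ih Q ((Sec.of_surj f hf).trans hs)
  | ext G N _ _ ih₁ ih₂ =>
    rintro Q _ ⟨H, _, i, f, hi, hf⟩ hQ ht
    have : ((N.comap i).map f).Normal := Subgroup.Normal.map inferInstance f hf
    have h1 : Finite (Q ⧸ (N.comap i).map f) := by
      refine ih₂ _ ⟨H ⧸ N.comap i, inferInstance, QuotientGroup.map _ N i le_rfl,
        QuotientGroup.map _ _ f (Subgroup.le_comap_map _ _), ?_, ?_⟩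
        (Group.fg_of_surjective (QuotientGroup.mk'_surjective _)) fun x => ?_
      · rw [← MonoidHom.ker_eq_bot_iff, QuotientGroup.ker_map, QuotientGroup.map_mk'_self]
      · exact QuotientGroup.map_surjective_of_surjective _ _ _
          ((QuotientGroup.mk'_surjective _).comp hf) _
      · obtain ⟨y, rfl⟩ := QuotientGroup.mk'_surjective _ x
        exact MonoidHom.isOfFinOrder _ (ht y)
    have : ((N.comap i).map f).FiniteIndex := Subgroup.finiteIndex_of_finite_quotient
    have h2 : Finite ((N.comap i).map f) := ih₁ _ (sec_map i hi f N)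
      (Subgroup.fg_of_index_ne_zero _) fun x => Submonoid.isOfFinOrder_coe.1 (ht x)
    exact Finite.of_equiv _ (Subgroup.groupEquivQuotientProdSubgroup
      (s := (N.comap i).map f)).symm
  | union G ι S hd hc _ ih =>
    rintro Q _ ⟨H, _, i, f, hi, hf⟩ hQ ht
    classical
    obtain ⟨T, hT⟩ := hQ.out
    choose g hg using hf
    choose k hk using hc
    have : Nonempty ι := ⟨k 1⟩
    obtain ⟨z, hz⟩ := hd.finset_le (T.image fun t => k (i (g t)))
    have hle : Subgroup.closure (T : Set Q) ≤ ((S z).comap i).map f := by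
      rw [Subgroup.closure_le]
      intro t ht
      exact ⟨g t, hz _ (Finset.mem_image_of_mem _ ht) (hk _), hg t⟩
    rw [hT] at hle
    exact ih z _ ((sec_map i hi f (S z)).trans
      (Sec.of_surj (Subgroup.subtype _) fun q => ⟨⟨q, hle trivial⟩, rfl⟩)) hQ ht

theorem ws3 : SWs3 := by
  intro p _ F G Q _ _ _ _ f hf hl hp hW m L hL
  classical
  obtain ⟨M, _, _, _, _, ρ, e, h1, h2, h3, h4⟩ := H45.Ws.ex_irr hL
  obtain ⟨σ, -, h5⟩ := h1.descend f hf (Ws3.triv hl hp h1)
  have h6 : ∀ x, σ.asAlgebraHom (MonoidAlgebra.mapDomain f x) = ρ.asAlgebraHom x := fun x => by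
    induction x using MonoidAlgebra.induction_linear with
    | zero => rw [MonoidAlgebra.mapDomain_zero, map_zero, map_zero]
    | add x y hx hy => rw [MonoidAlgebra.mapDomain_add, map_add, map_add, hx, hy]
    | single g c => rw [MonoidAlgebra.mapDomain_single, Representation.asAlgebraHom_single,
        Representation.asAlgebraHom_single, h5]
  let L' : Submodule (MonoidAlgebra F Q) (Fin m → MonoidAlgebra F Q) :=
    { carrier := {y | ∑ i, σ.asAlgebraHom (y i) (e i) = 0}
      add_mem' := fun {y z} hy hz => by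
        simp only [Set.mem_ofPred_eq, Pi.add_apply, map_add, LinearMap.add_apply,
          Finset.sum_add_distrib] at *
        rw [hy, hz, add_zero]
      zero_mem' := by simp
      smul_mem' := fun c y hy => by
        simp only [Set.mem_ofPred_eq, Pi.smul_apply, smul_eq_mul, map_mul,
          Module.End.mul_apply] at *
        rw [← map_sum, hy, map_zero] }
  have hL' : L' ≠ ⊤ := fun h => h3 <| funext fun i => by
    have h7 : ∑ j, σ.asAlgebraHom ((Pi.single i 1 : Fin m → MonoidAlgebra F Q) j) (e j) = 0 :=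
      show Pi.single i 1 ∈ L' from h ▸ Submodule.mem_top
    rw [Finset.sum_eq_single i (fun j _ hj => by simp [hj]) (by simp)] at h7
    simpa using h7
  obtain ⟨K, i1, i2, i3, n, τ, v, hv, h7⟩ := hW m L' hL'
  refine ⟨K, i1, i2, i3, n, τ.comp f, v, hv, fun x hx => ?_⟩
  simp only [H87.act_map]
  refine h7 _ ?_
  change ∑ i, σ.asAlgebraHom (MonoidAlgebra.mapDomain f (x i)) (e i) = 0
  simp only [h6, h2]
  exact h4 x hx

end Pool.Agent.MP_6a4325_al.H65
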